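import Mathlib
import Pool.Agent.Run7.h757.CR.App
import Pool.Agent.Run7.h373.CR.Sia

/-! Piece APP-FI: `ff` with additive characters in almost all short intervals. -/

set_option autoImplicit false

namespace Run7.h373.CR

open Finset
open Pool.Agent.H373R2.T7 (ev_log' ev_L' Vz lamz Vz_inv_small)
open Pool.Agent.H469R2.NK (e norm_e e_add e_nat)
open Pool.Agent.Q236.CR
open Pool.Agent.TH892.SW (ff ffn wt wt_nonneg wt_anti pp_sum)
open Run7.h757.CR

/-- the part of proper prime powers -/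
noncomputable def ppr (n : ℕ) : ℝ := (if n.Prime then (1 : ℝ) else 0) - ArithmeticFunction.vonMangoldt n * wt n

lemma ppr_abs (n : ℕ) (hn : 2 ≤ n) : |ppr n| ≤ 1 := by
  unfold ppr
  have hlog : 0 < Real.log n := Real.log_pos (by exact_mod_cast hn)
  by_cases hp : n.Prime
  · rw [if_pos hp, ArithmeticFunction.vonMangoldt_apply_prime hp]
    unfold wt
    rw [mul_one_div, div_self hlog.ne', sub_self, abs_zero]
    exact zero_le_one
  · rw [if_neg hp, zero_sub, abs_neg, abs_of_nonneg (mul_nonneg ArithmeticFunction.vonMangoldt_nonneg (wt_nonneg n))]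
    unfold wt
    rw [mul_one_div, div_le_one hlog]
    exact ArithmeticFunction.vonMangoldt_le_log

/-- the mean square of the windows of a small nonnegative sequence -/
lemma win_small (c : ℕ → ℝ) (hc0 : ∀ n, 0 ≤ c n) (hc1 : ∀ n, 2 ≤ n → c n ≤ 1) (x Y : ℕ) (_hx : 1 ≤ x) (hY : Y ≤ x) :
    ∑ m ∈ Ioc x (2 * x), (∑ n ∈ Ioc m (m + Y), c n) ^ 2 ≤ (Y : ℝ) ^ 2 * ∑ n ∈ Icc 2 (3 * x), c n := by
  have h1 : ∀ m ∈ Ioc x (2 * x), (∑ n ∈ Ioc m (m + Y), c n) ^ 2 ≤ Y * ∑ j ∈ Icc 1 Y, c (m + j) := by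
    intro m hm
    rw [mem_Ioc] at hm
    have h2 : ∑ n ∈ Ioc m (m + Y), c n = ∑ j ∈ Icc 1 Y, c (m + j) := by
      refine sum_bij' (fun n _ => n - m) (fun j _ => m + j) ?_ ?_ ?_ ?_ ?_
      · intro n hn
        rw [mem_Ioc] at hn
        rw [mem_Icc]; omega
      · intro j hj
        rw [mem_Icc] at hj
        rw [mem_Ioc]; omega
      · intro n hn
        rw [mem_Ioc] at hn
        omega
      · intro j _
        omega
      · intro n hn
        rw [mem_Ioc] at hn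
        have : m + (n - m) = n := by omega
        rw [this]
    rw [h2]
    calc (∑ j ∈ Icc 1 Y, c (m + j)) ^ 2 ≤ (Icc 1 Y).card * ∑ j ∈ Icc 1 Y, c (m + j) ^ 2 := sq_sum_le_card_mul_sum_sq
      _ ≤ Y * ∑ j ∈ Icc 1 Y, c (m + j) := by
          rw [Nat.card_Icc, Nat.add_sub_cancel]
          apply mul_le_mul_of_nonneg_left _ (Nat.cast_nonneg _)
          apply sum_le_sum
          intro j hj
          rw [mem_Icc] at hj
          have h3 := hc0 (m + j)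
          have h4 := hc1 (m + j) (by omega)
          nlinarith
  calc _ ≤ ∑ m ∈ Ioc x (2 * x), (Y : ℝ) * ∑ j ∈ Icc 1 Y, c (m + j) := sum_le_sum h1
    _ = (Y : ℝ) * ∑ j ∈ Icc 1 Y, ∑ m ∈ Ioc x (2 * x), c (m + j) := by rw [← mul_sum, sum_comm]
    _ ≤ (Y : ℝ) * ∑ _j ∈ Icc 1 Y, ∑ n ∈ Icc 2 (3 * x), c n := by
        apply mul_le_mul_of_nonneg_left _ (Nat.cast_nonneg _)
        apply sum_le_sum
        intro j hj
        rw [mem_Icc] at hj
        have h2 : ∑ m ∈ Ioc x (2 * x), c (m + j) = ∑ n ∈ (Ioc x (2 * x)).image (fun m => m + j), c n := by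
          rw [sum_image]
          intro a _ b _ hab
          simp only at hab
          omega
        rw [h2]
        apply sum_le_sum_of_subset_of_nonneg
        · intro n hn
          rw [mem_image] at hn
          obtain ⟨m, hm, rfl⟩ := hn
          rw [mem_Ioc] at hm
          rw [mem_Icc]
          omega
        · intro n _ _
          exact hc0 n
    _ = _ := by
        rw [sum_const, Nat.card_Icc, Nat.add_sub_cancel, nsmul_eq_mul]
        ring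

/-- the weight is almost constant on a window -/
lemma wt_var (x m n Y : ℕ) (hx : 3 ≤ x) (hm : x ≤ m) (hn1 : m < n) (hn2 : n ≤ m + Y) :
    |wt n - wt (m + 1)| ≤ Y / x := by
  have hx0 : (0 : ℝ) < x := by
    have : (3 : ℝ) ≤ x := by exact_mod_cast hx
    linarith
  have h1 : wt n ≤ wt (m + 1) := wt_anti (by omega) (by omega)
  rw [abs_of_nonpos (by linarith), neg_sub]
  unfold wt
  have hm1 : (3 : ℝ) ≤ ((m + 1 : ℕ) : ℝ) := by exact_mod_cast (by omega : 3 ≤ m + 1)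
  have hn3 : (3 : ℝ) ≤ (n : ℝ) := by exact_mod_cast (by omega : 3 ≤ n)
  have hlog : ∀ t : ℝ, 3 ≤ t → 1 ≤ Real.log t := by
    intro t ht
    have h2 : Real.exp 1 ≤ t := by
      have := Real.exp_one_lt_d9
      linarith
    have h3 := Real.log_le_log (Real.exp_pos 1) h2
    rwa [Real.log_exp] at h3
  have hl1 := hlog _ hm1
  have hl2 := hlog _ hn3
  have h2 : 1 / Real.log ((m + 1 : ℕ) : ℝ) - 1 / Real.log (n : ℝ) =
      (Real.log (n : ℝ) - Real.log ((m + 1 : ℕ) : ℝ)) / (Real.log ((m + 1 : ℕ) : ℝ) * Real.log (n : ℝ)) := by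
    field_simp
  rw [h2]
  have hm0 : (0 : ℝ) < ((m + 1 : ℕ) : ℝ) := by linarith
  have hn0 : (0 : ℝ) < (n : ℝ) := by linarith
  have h3 : Real.log (n : ℝ) - Real.log ((m + 1 : ℕ) : ℝ) ≤ Y / x := by
    rw [← Real.log_div hn0.ne' hm0.ne']
    refine (Real.log_le_sub_one_of_pos (div_pos hn0 hm0)).trans ?_
    rw [div_sub_one hm0.ne']
    have h4 : (n : ℝ) - ((m + 1 : ℕ) : ℝ) ≤ Y := by
      have : (n : ℝ) ≤ ((m + Y : ℕ) : ℝ) := by exact_mod_cast hn2
      push_cast at this ⊢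
      linarith
    have h5 : (x : ℝ) ≤ ((m + 1 : ℕ) : ℝ) := by exact_mod_cast (by omega : x ≤ m + 1)
    calc ((n : ℝ) - ((m + 1 : ℕ) : ℝ)) / ((m + 1 : ℕ) : ℝ) ≤ Y / ((m + 1 : ℕ) : ℝ) :=
          div_le_div_of_nonneg_right h4 hm0.le
      _ ≤ Y / x := div_le_div_of_nonneg_left (Nat.cast_nonneg _) hx0 h5
  have h4 : 0 ≤ Real.log (n : ℝ) - Real.log ((m + 1 : ℕ) : ℝ) := by
    rw [sub_nonneg]
    apply Real.log_le_log hm0
    exact_mod_cast hn1
  calc (Real.log (n : ℝ) - Real.log ((m + 1 : ℕ) : ℝ)) / (Real.log ((m + 1 : ℕ) : ℝ) * Real.log (n : ℝ))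
      ≤ Real.log (n : ℝ) - Real.log ((m + 1 : ℕ) : ℝ) := by
        apply div_le_self h4
        nlinarith
    _ ≤ Y / x := h3

lemma three_sq (a b c : ℝ) (A B C : ℝ) (ha : |a| ≤ A) (hb : |b| ≤ B) (hc : |c| ≤ C) :
    (|a| + |b| + |c|) ^ 2 ≤ 3 * A ^ 2 + 3 * B ^ 2 + 3 * C ^ 2 := by
  have h1 : |a| ^ 2 ≤ A ^ 2 := pow_le_pow_left₀ (abs_nonneg _) ha 2
  have h2 : |b| ^ 2 ≤ B ^ 2 := pow_le_pow_left₀ (abs_nonneg _) hb 2
  have h3 : |c| ^ 2 ≤ C ^ 2 := pow_le_pow_left₀ (abs_nonneg _) hc 2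
  nlinarith [sq_nonneg (|a| - |b|), sq_nonneg (|b| - |c|), sq_nonneg (|a| - |c|)]

/-- one window of `ff` -/
lemma win_ff (z q a x m Y : ℕ) (L : ℝ) (hx : 3 ≤ x) (hm : x < m) (hm2 : m ≤ 2 * x) (hYx : Y ≤ x) (hz : 1 ≤ z)
    (hV : (Vz z)⁻¹ ≤ L) (hL : L = Real.log x) :
    ‖∑ n ∈ Ioc m (m + Y), (ff z (n : ℤ) : ℂ) * e ((a : ℝ) * n / q)‖ ^ 2 ≤
      3 * ‖∑ n ∈ Ioc m (m + Y), ((ArithmeticFunction.vonMangoldt n : ℂ) - (lamz z n : ℂ)) * e ((a : ℝ) * n / q)‖ ^ 2 +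
      3 * (3 * L * (Y : ℝ) ^ 2 / x) ^ 2 + 3 * (∑ n ∈ Ioc m (m + Y), |ppr n|) ^ 2 := by
  have hx3 : (3 : ℝ) ≤ x := by exact_mod_cast hx
  have hx0 : (0 : ℝ) < x := by linarith
  have hL1 : 1 ≤ L := by
    have h2 : Real.exp 1 ≤ x := by
      have := Real.exp_one_lt_d9
      linarith
    have h3 := Real.log_le_log (Real.exp_pos 1) h2
    rwa [Real.log_exp, ← hL] at h3
  set G : ℕ → ℂ := fun n => ((ArithmeticFunction.vonMangoldt n : ℂ) - (lamz z n : ℂ)) * e ((a : ℝ) * n / q) with hG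
  have hGn : ∀ n ∈ Ioc m (m + Y), ‖G n‖ ≤ 3 * L := by
    intro n hn
    rw [mem_Ioc] at hn
    rw [hG]
    simp only
    rw [norm_mul, norm_e, mul_one, ← Complex.ofReal_sub, Complex.norm_real, Real.norm_eq_abs]
    have h1 : ArithmeticFunction.vonMangoldt n ≤ 2 * L := by
      refine ArithmeticFunction.vonMangoldt_le_log.trans ?_
      have hn0 : (0 : ℝ) < n := by exact_mod_cast (by omega : 0 < n)
      have h2 : (n : ℝ) ≤ (x : ℝ) ^ 2 := by
        have : (n : ℝ) ≤ ((3 * x : ℕ) : ℝ) := by exact_mod_cast (by omega : n ≤ 3 * x)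
        push_cast at this
        nlinarith
      have h3 := Real.log_le_log hn0 h2
      rw [Real.log_pow] at h3
      push_cast at h3
      rw [hL]
      exact h3
    have h2 : lamz z n ≤ L := (Pool.Agent.TH892.SW.lamz_le z n hz).trans hV
    have h3 := Pool.Agent.TH892.SW.lamz_nonneg z n hz
    have h4 : (0 : ℝ) ≤ ArithmeticFunction.vonMangoldt n := ArithmeticFunction.vonMangoldt_nonneg
    rw [abs_le]
    constructor <;> linarith
  have h1 : ∑ n ∈ Ioc m (m + Y), (ff z (n : ℤ) : ℂ) * e ((a : ℝ) * n / q) =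
      (wt (m + 1) : ℂ) * (∑ n ∈ Ioc m (m + Y), G n) +
      ∑ n ∈ Ioc m (m + Y), ((wt n - wt (m + 1) : ℝ) : ℂ) * G n +
      ∑ n ∈ Ioc m (m + Y), ((ppr n : ℝ) : ℂ) * e ((a : ℝ) * n / q) := by
    rw [mul_sum, ← sum_add_distrib, ← sum_add_distrib]
    apply sum_congr rfl
    intro n hn
    rw [mem_Ioc] at hn
    have h2 : ff z (n : ℤ) = wt n * (ArithmeticFunction.vonMangoldt n - lamz z n) + ppr n := by
      unfold ff ffn ppr
      rw [if_pos (by exact_mod_cast (by omega : 2 ≤ n)), Int.toNat_natCast]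
      ring
    rw [h2, hG]
    push_cast
    ring
  have h2 : ‖(wt (m + 1) : ℂ) * (∑ n ∈ Ioc m (m + Y), G n)‖ ≤ ‖∑ n ∈ Ioc m (m + Y), G n‖ := by
    rw [norm_mul, Complex.norm_real, Real.norm_of_nonneg (wt_nonneg _)]
    apply mul_le_of_le_one_left (norm_nonneg _)
    unfold wt
    rw [div_le_one]
    · refine hL1.trans ?_
      rw [hL]
      apply Real.log_le_log hx0
      exact_mod_cast (by omega : x ≤ m + 1)
    · apply Real.log_pos
      exact_mod_cast (by omega : 1 < m + 1)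
  have h3 : ‖∑ n ∈ Ioc m (m + Y), ((wt n - wt (m + 1) : ℝ) : ℂ) * G n‖ ≤ 3 * L * (Y : ℝ) ^ 2 / x := by
    calc _ ≤ ∑ _n ∈ Ioc m (m + Y), (Y / x : ℝ) * (3 * L) := by
          apply norm_sum_le_of_le
          intro n hn
          rw [norm_mul, Complex.norm_real, Real.norm_eq_abs]
          apply mul_le_mul _ (hGn n hn) (norm_nonneg _) (by positivity)
          rw [mem_Ioc] at hn
          exact wt_var x m n Y hx hm.le hn.1 hn.2
      _ = _ := by
          rw [sum_const, Nat.card_Ioc, nsmul_eq_mul]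
          have : m + Y - m = Y := by omega
          rw [this]
          ring
  have h4 : ‖∑ n ∈ Ioc m (m + Y), ((ppr n : ℝ) : ℂ) * e ((a : ℝ) * n / q)‖ ≤ ∑ n ∈ Ioc m (m + Y), |ppr n| := by
    apply norm_sum_le_of_le
    intro n _
    rw [norm_mul, norm_e, mul_one, Complex.norm_real, Real.norm_eq_abs]
  rw [h1]
  have h5 := three_sq ‖(wt (m + 1) : ℂ) * (∑ n ∈ Ioc m (m + Y), G n)‖
    ‖∑ n ∈ Ioc m (m + Y), ((wt n - wt (m + 1) : ℝ) : ℂ) * G n‖
    ‖∑ n ∈ Ioc m (m + Y), ((ppr n : ℝ) : ℂ) * e ((a : ℝ) * n / q)‖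
    ‖∑ n ∈ Ioc m (m + Y), G n‖ (3 * L * (Y : ℝ) ^ 2 / x) (∑ n ∈ Ioc m (m + Y), |ppr n|)
    (by rw [abs_of_nonneg (norm_nonneg _)]; exact h2) (by rw [abs_of_nonneg (norm_nonneg _)]; exact h3)
    (by rw [abs_of_nonneg (norm_nonneg _)]; exact h4)
  refine le_trans ?_ h5
  rw [abs_of_nonneg (norm_nonneg _), abs_of_nonneg (norm_nonneg _), abs_of_nonneg (norm_nonneg _)]
  apply pow_le_pow_left₀ (norm_nonneg _)
  exact norm_add₃_le

theorem fi : S_SIA → S_LZ → S_FI := by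
  intro hsia hlz B U
  obtain ⟨C1, X1, h1⟩ := hsia B (U + 1)
  refine ⟨max C1 (U + 3), fun E => ?_⟩
  obtain ⟨X2, h2⟩ := hlz B E (U + 1)
  obtain ⟨X3, h3⟩ := Vz_inv_small E
  obtain ⟨n1, h4⟩ := ev_L' 100
  obtain ⟨n2, h5⟩ := ev_log' (U + 1) 108
  refine ⟨max (max X1 (max X2 X3)) (max (max n1 n2) 3), fun x hx z q hq hqB hqz hzE a Y hY hYx => ?_⟩
  have hxX1 : X1 ≤ x := le_trans (le_trans (le_max_left _ _) (le_max_left _ _)) hx
  have hxX2 : X2 ≤ x := le_trans (le_trans (le_trans (le_max_left _ _) (le_max_right _ _)) (le_max_left _ _)) hx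
  have hxX3 : X3 ≤ x := le_trans (le_trans (le_trans (le_max_right _ _) (le_max_right _ _)) (le_max_left _ _)) hx
  have hxn1 : n1 ≤ x := le_trans (le_trans (le_trans (le_max_left _ _) (le_max_left _ _)) (le_max_right _ _)) hx
  have hxn2 : n2 ≤ x := le_trans (le_trans (le_trans (le_max_right _ _) (le_max_left _ _)) (le_max_right _ _)) hx
  have hx3 : 3 ≤ x := le_trans (le_trans (le_max_right _ _) (le_max_right _ _)) hx
  have hz : 1 ≤ z := hq.trans hqz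
  have hV := h3 x hxX3 z hz hzE
  have hL := h4 x hxn1
  have a2 := h5 x hxn2
  have hxr : (3 : ℝ) ≤ x := by exact_mod_cast hx3
  have hx0 : (0 : ℝ) < x := by linarith
  set L := Real.log x with hLd
  have hL1 : 1 ≤ L := by linarith
  have hL0 : 0 < L := by linarith
  set C := max C1 (U + 3) with hC
  have hLC1 : (1 : ℝ) ≤ L ^ C := one_le_pow₀ hL1
  have hY0 : (0 : ℝ) ≤ Y := Nat.cast_nonneg _
  have hYxr : (Y : ℝ) ≤ x := by nlinarith
  have hYxn : Y ≤ x := by exact_mod_cast hYxr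
  have hw0 : 0 < (x : ℝ) ^ (1 / 3 : ℝ) := Real.rpow_pos_of_pos hx0 _
  have hY1 : (x : ℝ) ^ (1 / 3 : ℝ) * L ^ C1 ≤ Y := by
    refine le_trans ?_ hY
    apply mul_le_mul_of_nonneg_left _ hw0.le
    exact pow_le_pow_right₀ hL1 (le_max_left _ _)
  have hY2 : (x : ℝ) ^ (1 / 8 : ℝ) ≤ Y := by
    refine le_trans ?_ hY
    calc (x : ℝ) ^ (1 / 8 : ℝ) ≤ (x : ℝ) ^ (1 / 3 : ℝ) :=
          Real.rpow_le_rpow_of_exponent_le (by linarith) (by norm_num)
      _ ≤ (x : ℝ) ^ (1 / 3 : ℝ) * L ^ C := le_mul_of_one_le_right hw0.le hLC1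
  have hYpos : 0 < (Y : ℝ) := by
    have : 0 < (x : ℝ) ^ (1 / 8 : ℝ) := Real.rpow_pos_of_pos hx0 _
    linarith
  have hS := (h1 x hxX1 q hq hqB a Y hY1 hYxn).1
  have hZ : ∀ m : ℕ, _ := fun m => h2 x hxX2 z q hq hqB hqz hzE a m Y hY2
  set W : ℝ := x * (Y : ℝ) ^ 2 with hW
  have hW0 : 0 < W := by positivity
  set G : ℕ → ℂ := fun n => ((ArithmeticFunction.vonMangoldt n : ℂ) - (lamz z n : ℂ)) * e ((a : ℝ) * n / q) with hG
  have hGs : ∑ m ∈ Ioc x (2 * x), ‖∑ n ∈ Ioc m (m + Y), G n‖ ^ 2 ≤ 4 * (W / L ^ (U + 1)) := by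
    have h6 : ∀ m ∈ Ioc x (2 * x), ‖∑ n ∈ Ioc m (m + Y), G n‖ ^ 2 ≤
        2 * ‖∑ n ∈ Finset.Ioc m (m + Y), (ArithmeticFunction.vonMangoldt n : ℂ) * e ((a : ℝ) * n / q) - cc q a * Y‖ ^ 2 +
        2 * (Y / L ^ (U + 1)) ^ 2 := by
      intro m _
      have h7 := hZ m
      set A := ∑ n ∈ Finset.Ioc m (m + Y), (ArithmeticFunction.vonMangoldt n : ℂ) * e ((a : ℝ) * n / q) - cc q a * Y
      set A2 := ∑ n ∈ Finset.Ioc m (m + Y), (lamz z n : ℂ) * e ((a : ℝ) * n / q) - cc q a * Y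
      have h8 : ∑ n ∈ Ioc m (m + Y), G n = A - A2 := by
        simp only [A, A2, hG]
        rw [sub_sub_sub_cancel_right, ← sum_sub_distrib]
        apply sum_congr rfl
        intro n _
        ring
      rw [h8]
      have h9 : ‖A - A2‖ ≤ ‖A‖ + ‖A2‖ := norm_sub_le _ _
      have h10 : ‖A2‖ ^ 2 ≤ (Y / L ^ (U + 1)) ^ 2 := pow_le_pow_left₀ (norm_nonneg _) h7 2
      calc ‖A - A2‖ ^ 2 ≤ (‖A‖ + ‖A2‖) ^ 2 := pow_le_pow_left₀ (norm_nonneg _) h9 2
        _ ≤ 2 * ‖A‖ ^ 2 + 2 * ‖A2‖ ^ 2 := by nlinarith [sq_nonneg (‖A‖ - ‖A2‖)]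
        _ ≤ _ := by linarith
    refine (sum_le_sum h6).trans ?_
    rw [sum_add_distrib, ← mul_sum, sum_const, Nat.card_Ioc, nsmul_eq_mul]
    have h7 : 2 * x - x = x := by omega
    rw [h7]
    have h8 : (x : ℝ) * (2 * (Y / L ^ (U + 1)) ^ 2) ≤ 2 * (W / L ^ (U + 1)) := by
      have h9 : (x : ℝ) * (2 * (Y / L ^ (U + 1)) ^ 2) = 2 * (W / L ^ (U + 1)) * (1 / L ^ (U + 1)) := by
        rw [hW]; field_simp
      rw [h9]
      apply mul_le_of_le_one_right (by positivity)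
      rw [div_le_one (by positivity)]
      exact one_le_pow₀ hL1
    linarith
  have hP : ∑ m ∈ Ioc x (2 * x), (∑ n ∈ Ioc m (m + Y), |ppr n|) ^ 2 ≤ (Y : ℝ) ^ 2 * (12 * √(x : ℝ) * L) := by
    refine (win_small (fun n => |ppr n|) (fun _ => abs_nonneg _) (fun n hn => ppr_abs n hn) x Y (by omega) hYxn).trans ?_
    apply mul_le_mul_of_nonneg_left _ (by positivity)
    refine (pp_sum (3 * x) (by omega)).trans ?_
    have h6 : √((3 * x : ℕ) : ℝ) ≤ 2 * √(x : ℝ) := by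
      have h7 : ((3 * x : ℕ) : ℝ) ≤ 4 * (x : ℝ) := by push_cast; linarith
      calc √((3 * x : ℕ) : ℝ) ≤ √(4 * (x : ℝ)) := Real.sqrt_le_sqrt h7
        _ = 2 * √(x : ℝ) := by
            rw [Real.sqrt_mul (by norm_num), show (4 : ℝ) = 2 ^ 2 by norm_num, Real.sqrt_sq (by norm_num)]
    have h7 : Real.log ((3 * x : ℕ) : ℝ) ≤ 2 * L := by
      have h8 : ((3 * x : ℕ) : ℝ) ≤ (x : ℝ) ^ 2 := by push_cast; nlinarith
      have h9 := Real.log_le_log (by push_cast; positivity) h8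
      rw [Real.log_pow] at h9
      push_cast at h9 ⊢
      exact h9
    have h8 : 0 ≤ Real.log ((3 * x : ℕ) : ℝ) := Real.log_natCast_nonneg _
    calc 3 * √((3 * x : ℕ) : ℝ) * Real.log ((3 * x : ℕ) : ℝ) ≤ 3 * (2 * √(x : ℝ)) * (2 * L) := by gcongr
      _ = 12 * √(x : ℝ) * L := by ring
  have hE : (3 * L * (Y : ℝ) ^ 2 / x) ^ 2 * x ≤ 9 * (W / L ^ (U + 4)) := by
    have h6 : (Y : ℝ) ^ 2 * L ^ (U + 6) ≤ (x : ℝ) ^ 2 := by
      calc (Y : ℝ) ^ 2 * L ^ (U + 6) ≤ (Y : ℝ) ^ 2 * L ^ (2 * C) := by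
            apply mul_le_mul_of_nonneg_left _ (by positivity)
            apply pow_le_pow_right₀ hL1
            have : U + 3 ≤ C := le_max_right _ _
            omega
        _ = ((Y : ℝ) * L ^ C) ^ 2 := by ring
        _ ≤ (x : ℝ) ^ 2 := by gcongr
    have h7 : (3 * L * (Y : ℝ) ^ 2 / x) ^ 2 * x = 9 * (W / L ^ (U + 4)) * (((Y : ℝ) ^ 2 * L ^ (U + 6)) / (x : ℝ) ^ 2) := by
      rw [hW]
      field_simp
      ring
    rw [h7]
    apply mul_le_of_le_one_right (by positivity)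
    rw [div_le_one (by positivity)]
    exact h6
  calc _ ≤ ∑ m ∈ Ioc x (2 * x), (3 * ‖∑ n ∈ Ioc m (m + Y), G n‖ ^ 2 +
      3 * (3 * L * (Y : ℝ) ^ 2 / x) ^ 2 + 3 * (∑ n ∈ Ioc m (m + Y), |ppr n|) ^ 2) := by
        apply sum_le_sum
        intro m hm
        rw [mem_Ioc] at hm
        exact win_ff z q a x m Y L hx3 hm.1 hm.2 hYxn hz hV hLd
    _ = 3 * ∑ m ∈ Ioc x (2 * x), ‖∑ n ∈ Ioc m (m + Y), G n‖ ^ 2 +
        3 * ((3 * L * (Y : ℝ) ^ 2 / x) ^ 2 * x) + 3 * ∑ m ∈ Ioc x (2 * x), (∑ n ∈ Ioc m (m + Y), |ppr n|) ^ 2 := by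
        rw [sum_add_distrib, sum_add_distrib, sum_const, Nat.card_Ioc, nsmul_eq_mul, mul_sum, mul_sum]
        have h7 : 2 * x - x = x := by omega
        rw [h7]
        ring
    _ ≤ 3 * (4 * (W / L ^ (U + 1))) + 3 * (9 * (W / L ^ (U + 4))) + 3 * ((Y : ℝ) ^ 2 * (12 * √(x : ℝ) * L)) := by
        gcongr
    _ ≤ (1 / 3) * (W / L ^ U) + (1 / 3) * (W / L ^ U) + (1 / 3) * (W / L ^ U) := by
        apply add_le_add (add_le_add _ _) _
        · have h6 : 3 * (4 * (W / L ^ (U + 1))) = (12 / L) * (W / L ^ U) := by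
            rw [pow_succ]; field_simp; norm_num
          rw [h6]
          apply mul_le_mul_of_nonneg_right _ (by positivity)
          rw [div_le_div_iff₀ hL0 (by norm_num)]
          linarith
        · have h6 : 3 * (9 * (W / L ^ (U + 4))) = (27 / L ^ 4) * (W / L ^ U) := by
            rw [pow_add]; field_simp; norm_num
          rw [h6]
          apply mul_le_mul_of_nonneg_right _ (by positivity)
          rw [div_le_div_iff₀ (by positivity) (by norm_num)]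
          have h7 : L ≤ L ^ 4 := by
            calc L = L ^ 1 := (pow_one L).symm
              _ ≤ L ^ 4 := pow_le_pow_right₀ hL1 (by norm_num)
          linarith
        · rw [← mul_div_assoc, le_div_iff₀ (by positivity)]
          have hss : √(x : ℝ) * √(x : ℝ) = x := Real.mul_self_sqrt hx0.le
          have h6 : 3 * ((Y : ℝ) ^ 2 * (12 * √(x : ℝ) * L)) * L ^ U =
              (1 / 3) * ((Y : ℝ) ^ 2 * √(x : ℝ) * (108 * L ^ (U + 1))) := by ring
          rw [h6]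
          have h7 : (Y : ℝ) ^ 2 * √(x : ℝ) * (108 * L ^ (U + 1)) ≤ (Y : ℝ) ^ 2 * √(x : ℝ) * √(x : ℝ) := by
            gcongr
          have h8 : (Y : ℝ) ^ 2 * √(x : ℝ) * √(x : ℝ) = W := by
            rw [mul_assoc, hss, hW]; ring
          linarith
    _ = W / L ^ U := by ring

end Run7.h373.CR
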