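import Mathlib
import Pool.Agent.Run7.h373.CR.Fi

/-! Piece APP-APM, part A: elementary preparations. -/

set_option autoImplicit false

namespace Run7.h373.CR

open Finset
open Pool.Agent.H373R2.T7 (ev_log' ev_L' Vz lamz Vz_inv_small)
open Pool.Agent.H469R2.NK (e norm_e e_add e_nat e_zero)
open Pool.Agent.TH892.SW (ff ffn wt wt_nonneg wt_anti pp_sum)

lemma e_pow (x : ℝ) (b : ℕ) : e x ^ b = e (b * x) := by
  unfold e
  rw [← Complex.exp_nat_mul]
  congr 1
  push_cast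
  ring

lemma e_one_int (x : ℝ) (h : e x = 1) : ∃ n : ℤ, x = n := by
  unfold e at h
  rw [Complex.exp_eq_one_iff] at h
  obtain ⟨n, hn⟩ := h
  refine ⟨n, ?_⟩
  have h1 : (2 * Real.pi * Complex.I) ≠ 0 := by
    simp [Real.pi_ne_zero, Complex.I_ne_zero]
  have h2 : ((x : ℂ) - n) * (2 * Real.pi * Complex.I) = 0 := by
    push_cast at hn
    linear_combination hn
  rcases mul_eq_zero.1 h2 with h3 | h3
  · have h4 : (x : ℂ) = ((n : ℝ) : ℂ) := by
      push_cast
      linear_combination h3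
    exact_mod_cast h4
  · exact absurd h3 h1

/-- orthogonality of the additive characters -/
lemma e_orth (q k : ℕ) (hq : 1 ≤ q) : ∑ b ∈ range q, e ((b : ℝ) * k / q) = if q ∣ k then (q : ℂ) else 0 := by
  have hq0 : (q : ℝ) ≠ 0 := by
    have : (0 : ℝ) < q := by exact_mod_cast hq
    exact this.ne'
  split_ifs with h
  · obtain ⟨l, rfl⟩ := h
    have h1 : ∀ b ∈ range q, e ((b : ℝ) * ((q * l : ℕ) : ℝ) / q) = 1 := by
      intro b _
      have h2 : (b : ℝ) * ((q * l : ℕ) : ℝ) / q = ((b * l : ℕ) : ℝ) := by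
        push_cast
        field_simp
      rw [h2, e_nat]
    rw [sum_congr rfl h1, sum_const, card_range, nsmul_eq_mul, mul_one]
  · set w := e ((k : ℝ) / q) with hw
    have h1 : ∀ b ∈ range q, e ((b : ℝ) * k / q) = w ^ b := by
      intro b _
      rw [hw, e_pow, mul_div_assoc]
    have hw1 : w ≠ 1 := by
      intro h2
      obtain ⟨n, hn⟩ := e_one_int _ h2
      apply h
      rw [div_eq_iff hq0] at hn
      have h3 : (k : ℤ) = n * q := by exact_mod_cast hn
      have h4 : (q : ℤ) ∣ (k : ℤ) := ⟨n, by rw [h3]; ring⟩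
      exact_mod_cast h4
    have hwq : w ^ q = 1 := by
      rw [hw, e_pow, mul_div_cancel₀ _ hq0, e_nat]
    rw [sum_congr rfl h1, geom_sum_eq hw1, hwq, sub_self, zero_div]

/-- sums of a progression as an average of windows with additive characters -/
lemma prog_eq (q M c : ℕ) (hq : 1 ≤ q) (f : ℤ → ℝ) :
    ((∑ t ∈ Icc (1 : ℤ) M, f (c + q * t) : ℝ) : ℂ) =
      (1 / (q : ℂ)) * ∑ b ∈ range q, e (-((b : ℝ) * c / q)) * ∑ n ∈ Ioc c (c + q * M), (f (n : ℤ) : ℂ) * e ((b : ℝ) * n / q) := by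
  have hqc : (q : ℂ) ≠ 0 := by exact_mod_cast (by omega : q ≠ 0)
  have h1 : ∑ b ∈ range q, e (-((b : ℝ) * c / q)) * ∑ n ∈ Ioc c (c + q * M), (f (n : ℤ) : ℂ) * e ((b : ℝ) * n / q) =
      ∑ n ∈ Ioc c (c + q * M), (f (n : ℤ) : ℂ) * (if q ∣ n - c then (q : ℂ) else 0) := by
    simp_rw [mul_sum]
    rw [sum_comm]
    apply sum_congr rfl
    intro n hn
    rw [mem_Ioc] at hn
    rw [← e_orth q (n - c) hq, mul_sum]
    apply sum_congr rfl
    intro b _
    have h2 : e (-((b : ℝ) * c / q)) * e ((b : ℝ) * n / q) = e ((b : ℝ) * ((n - c : ℕ) : ℝ) / q) := by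
      rw [← e_add]
      congr 1
      rw [Nat.cast_sub hn.1.le]
      ring
    rw [← h2]
    ring
  rw [h1]
  have h2 : ∑ n ∈ Ioc c (c + q * M), (f (n : ℤ) : ℂ) * (if q ∣ n - c then (q : ℂ) else 0) =
      q * ∑ n ∈ (Ioc c (c + q * M)).filter (fun n => q ∣ n - c), (f (n : ℤ) : ℂ) := by
    rw [sum_filter, mul_sum]
    apply sum_congr rfl
    intro n _
    split_ifs
    · ring
    · simp
  rw [h2, ← mul_assoc, one_div, inv_mul_cancel₀ hqc, one_mul]
  push_cast
  refine sum_bij' (fun t _ => c + q * t.toNat) (fun n _ => (((n - c) / q : ℕ) : ℤ)) ?_ ?_ ?_ ?_ ?_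
  · intro t ht
    rw [mem_Icc] at ht
    rw [mem_filter, mem_Ioc]
    have h3 : 1 ≤ t.toNat := by omega
    have h4 : t.toNat ≤ M := by omega
    refine ⟨⟨?_, ?_⟩, ?_⟩
    · have := Nat.mul_le_mul hq h3
      omega
    · exact Nat.add_le_add_left (Nat.mul_le_mul_left q h4) c
    · rw [Nat.add_sub_cancel_left]
      exact dvd_mul_right _ _
  · intro n hn
    rw [mem_filter, mem_Ioc] at hn
    obtain ⟨⟨h3, h4⟩, k, hk⟩ := hn
    have h5 : (n - c) / q = k := by rw [hk]; exact Nat.mul_div_cancel_left k hq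
    rw [h5, mem_Icc]
    have h6 : 0 < k := by
      rcases Nat.eq_zero_or_pos k with h | h
      · rw [h, mul_zero] at hk; omega
      · exact h
    have h7 : q * k ≤ q * M := by omega
    have h8 : k ≤ M := Nat.le_of_mul_le_mul_left h7 hq
    constructor
    · exact_mod_cast h6
    · exact_mod_cast h8
  · intro t ht
    rw [mem_Icc] at ht
    rw [Nat.add_sub_cancel_left, Nat.mul_div_cancel_left _ hq]
    omega
  · intro n hn
    rw [mem_filter, mem_Ioc] at hn
    obtain ⟨⟨h3, h4⟩, k, hk⟩ := hn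
    rw [Int.toNat_natCast, hk, Nat.mul_div_cancel_left k hq]
    omega
  · intro t ht
    rw [mem_Icc] at ht
    have h3 : ((c + q * t.toNat : ℕ) : ℤ) = c + q * t := by
      push_cast
      rw [Int.toNat_of_nonneg (by omega)]
    rw [h3]

/-- the square of a sum over a progression -/
lemma prog_sq (q M c : ℕ) (hq : 1 ≤ q) (f : ℤ → ℝ) :
    (∑ t ∈ Icc (1 : ℤ) M, f (c + q * t)) ^ 2 ≤
      (1 / (q : ℝ)) * ∑ b ∈ range q, ‖∑ n ∈ Ioc c (c + q * M), (f (n : ℤ) : ℂ) * e ((b : ℝ) * n / q)‖ ^ 2 := by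
  have hq0 : (0 : ℝ) < q := by exact_mod_cast hq
  set w : ℕ → ℂ := fun b => ∑ n ∈ Ioc c (c + q * M), (f (n : ℤ) : ℂ) * e ((b : ℝ) * n / q) with hw
  have h1 : |∑ t ∈ Icc (1 : ℤ) M, f (c + q * t)| ≤ (1 / (q : ℝ)) * ∑ b ∈ range q, ‖w b‖ := by
    rw [← Real.norm_eq_abs, ← Complex.norm_real, prog_eq q M c hq f, norm_mul]
    apply mul_le_mul _ _ (norm_nonneg _) (by positivity)
    · rw [norm_div, norm_one, Complex.norm_natCast]
    · apply norm_sum_le_of_le
      intro b _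
      rw [norm_mul, norm_e, one_mul]
  have h2 : (∑ b ∈ range q, ‖w b‖) ^ 2 ≤ q * ∑ b ∈ range q, ‖w b‖ ^ 2 := by
    have := sq_sum_le_card_mul_sum_sq (s := range q) (f := fun b => ‖w b‖)
    rwa [card_range] at this
  calc (∑ t ∈ Icc (1 : ℤ) M, f (c + q * t)) ^ 2 = |∑ t ∈ Icc (1 : ℤ) M, f (c + q * t)| ^ 2 := (sq_abs _).symm
    _ ≤ ((1 / (q : ℝ)) * ∑ b ∈ range q, ‖w b‖) ^ 2 := pow_le_pow_left₀ (abs_nonneg _) h1 2
    _ = (1 / (q : ℝ)) ^ 2 * (∑ b ∈ range q, ‖w b‖) ^ 2 := by rw [mul_pow]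
    _ ≤ (1 / (q : ℝ)) ^ 2 * (q * ∑ b ∈ range q, ‖w b‖ ^ 2) := mul_le_mul_of_nonneg_left h2 (by positivity)
    _ = (1 / (q : ℝ)) * ∑ b ∈ range q, ‖w b‖ ^ 2 := by field_simp

/-- a dyadic cover -/
lemma dyad (F : ℕ → ℝ) (hF : ∀ n, 0 ≤ F n) (x₀ N : ℕ) (K : ℝ) (hK : 0 ≤ K) (hx0 : 1 ≤ x₀)
    (h : ∀ x, x₀ ≤ x → x ≤ N → ∑ m ∈ Ioc x (2 * x), F m ≤ K * x) :
    ∑ m ∈ Ioc x₀ N, F m ≤ K * (2 * N) := by
  have key : ∀ d x : ℕ, N - x ≤ d → x₀ ≤ x → x ≤ N → ∑ m ∈ Ioc x N, F m ≤ K * (2 * N - x) := by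
    intro d
    induction d with
    | zero =>
      intro x h1 _ h3
      have h4 : x = N := by omega
      rw [h4, Ioc_self, sum_empty]
      apply mul_nonneg hK
      have : (0 : ℝ) ≤ N := Nat.cast_nonneg _
      linarith
    | succ d ih =>
      intro x h1 h2 h3
      rcases Nat.lt_or_ge N (2 * x) with h4 | h4
      · calc ∑ m ∈ Ioc x N, F m ≤ ∑ m ∈ Ioc x (2 * x), F m := by
              apply sum_le_sum_of_subset_of_nonneg
              · exact Ioc_subset_Ioc_right h4.le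
              · intro n _ _; exact hF n
          _ ≤ K * x := h x h2 h3
          _ ≤ K * (2 * N - x) := by
              apply mul_le_mul_of_nonneg_left _ hK
              have : (x : ℝ) ≤ N := by exact_mod_cast h3
              linarith
      · have h5 := ih (2 * x) (by omega) (by omega) h4
        have h6 := h x h2 h3
        rw [← sum_Ioc_consecutive F (by omega : x ≤ 2 * x) h4]
        push_cast at h5
        nlinarith
  rcases Nat.lt_or_ge N x₀ with h1 | h1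
  · rw [Ioc_eq_empty (by omega), sum_empty]
    positivity
  · refine (key (N - x₀) x₀ le_rfl le_rfl h1).trans ?_
    apply mul_le_mul_of_nonneg_left _ hK
    have : (0 : ℝ) ≤ x₀ := Nat.cast_nonneg _
    linarith

end Run7.h373.CR
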