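import Mathlib
import Pool.Agent.Run7.h373.CR.ApmA

/-! Piece APP-APM: `ff` in progressions on short intervals, in mean square. -/

set_option autoImplicit false

namespace Run7.h373.CR

open Finset
open Pool.Agent.H373R2.T7 (ev_log' ev_L' Vz lamz Vz_inv_small)
open Pool.Agent.H469R2.NK (e norm_e e_add e_nat)
open Pool.Agent.TH892.SW (ff ffn wt wt_nonneg wt_anti pp_sum sq_ff)
open Run7.h757.CR

theorem apm : S_FI → S_APM := by
  intro hfi U C Q
  obtain ⟨CF, hF⟩ := hfi (Q + 1) (U + C + 2 * Q + 2)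
  refine ⟨Q, fun E hE => ?_⟩
  obtain ⟨XF, hXF⟩ := hF (E + 1)
  obtain ⟨XS, hXS⟩ := sq_ff E
  obtain ⟨n1, h1⟩ := ev_log' (U + 3) 1
  obtain ⟨n2, h2⟩ := ev_log' C 1
  obtain ⟨n3, h3⟩ := ev_log' (Q + (U + 3)) 3
  obtain ⟨n4, h4⟩ := ev_L' (2 ^ (U + C + 2 * Q + 2 + 2) + 2 ^ (E + 1) + 2 ^ CF + 36)
  refine ⟨Q + C + CF + (U + 3) + 2, max (max (max XS n1) (max n2 n3)) (max (max n4 4) ((XF + 1) ^ 2)),
    fun X hX q M hq hqQ hM hMX => ?_⟩
  have hXS' : XS ≤ X := le_trans (le_trans (le_trans (le_max_left _ _) (le_max_left _ _)) (le_max_left _ _)) hX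
  have hXn1 : n1 ≤ X := le_trans (le_trans (le_trans (le_max_right _ _) (le_max_left _ _)) (le_max_left _ _)) hX
  have hXn2 : n2 ≤ X := le_trans (le_trans (le_trans (le_max_left _ _) (le_max_right _ _)) (le_max_left _ _)) hX
  have hXn3 : n3 ≤ X := le_trans (le_trans (le_trans (le_max_right _ _) (le_max_right _ _)) (le_max_left _ _)) hX
  have hXn4 : n4 ≤ X := le_trans (le_trans (le_trans (le_max_left _ _) (le_max_left _ _)) (le_max_right _ _)) hX
  have hX4 : 4 ≤ X := le_trans (le_trans (le_trans (le_max_right _ _) (le_max_left _ _)) (le_max_right _ _)) hX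
  have hXF2 : (XF + 1) ^ 2 ≤ X := le_trans (le_trans (le_max_right _ _) (le_max_right _ _)) hX
  have hXr : (4 : ℝ) ≤ X := by exact_mod_cast hX4
  have hX0 : (0 : ℝ) < X := by linarith
  have a1 := h1 X hXn1
  have a2 := h2 X hXn2
  have a3 := h3 X hXn3
  have hL := h4 X hXn4
  rw [one_mul] at a1 a2
  set L := Real.log X with hLd
  set U' := U + C + 2 * Q + 2 with hU'
  have p1 : (0 : ℝ) < 2 ^ (U' + 2) := by positivity
  have p2 : (0 : ℝ) < 2 ^ (E + 1) := by positivity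
  have p3 : (0 : ℝ) < 2 ^ CF := by positivity
  have hL36 : 36 ≤ L := by linarith
  have hL1 : 1 ≤ L := by linarith
  have hL0 : 0 < L := by linarith
  have hLU : 2 ^ (U' + 2) ≤ L := by linarith
  have hLE : 2 ^ (E + 1) ≤ L := by linarith
  have hLCF : 2 ^ CF ≤ L := by linarith
  have hLQ : 2 ^ (Q + 1) ≤ L := by
    refine le_trans ?_ hLE
    exact pow_le_pow_right₀ (by norm_num) (by omega)
  have hss : √(X : ℝ) * √(X : ℝ) = X := Real.mul_self_sqrt hX0.le
  have hs0 : 0 < √(X : ℝ) := Real.sqrt_pos.2 hX0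
  have hs2 : 2 ≤ √(X : ℝ) := by
    rw [show (2 : ℝ) = √4 by rw [show (4 : ℝ) = 2 ^ 2 by norm_num]; rw [Real.sqrt_sq]; norm_num]
    exact Real.sqrt_le_sqrt hXr
  have hsX : √(X : ℝ) ≤ X := by nlinarith
  -- the parameter z
  set z := ⌊L ^ E⌋₊ with hz
  have hzE : (z : ℝ) ≤ L ^ E := Nat.floor_le (by positivity)
  have hqz : q ≤ z := by
    rw [hz]
    apply Nat.le_floor
    exact hqQ.trans (pow_le_pow_right₀ hL1 hE)
  have hz1 : 1 ≤ z := hq.trans hqz
  have hff := (hXS X hXS' z hz1 hzE).1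
  have hq1 : (1 : ℝ) ≤ q := by exact_mod_cast hq
  have hq0 : (0 : ℝ) < q := by linarith
  have hM0 : (0 : ℝ) ≤ M := Nat.cast_nonneg _
  set N := ⌊(X : ℝ) * L ^ C⌋₊ with hN
  have hNle : (N : ℝ) ≤ X * L ^ C := Nat.floor_le (by positivity)
  set x₀ := ⌊(X : ℝ) / L ^ (U + 3)⌋₊ + 1 with hx₀
  have hx0ge : (X : ℝ) / L ^ (U + 3) ≤ x₀ := by
    rw [hx₀]; push_cast
    exact (Nat.lt_floor_add_one _).le
  have hx0le : (x₀ : ℝ) ≤ X / L ^ (U + 3) + 1 := by
    rw [hx₀]; push_cast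
    have := Nat.floor_le (show 0 ≤ (X : ℝ) / L ^ (U + 3) by positivity)
    linarith
  have hx01 : 1 ≤ x₀ := by omega
  set F : ℤ → ℝ := fun c => (∑ t ∈ Icc (1 : ℤ) M, ff z (c + q * t)) ^ 2 with hFd
  have hF0 : ∀ c, 0 ≤ F c := fun c => sq_nonneg _
  -- the trivial bound
  have htriv : ∀ c : ℤ, F c ≤ (3 * L * M) ^ 2 := by
    intro c
    rw [hFd]
    simp only
    rw [← sq_abs]
    apply pow_le_pow_left₀ (abs_nonneg _)
    calc |∑ t ∈ Icc (1 : ℤ) M, ff z (c + q * t)| ≤ ∑ t ∈ Icc (1 : ℤ) M, |ff z (c + q * t)| := abs_sum_le_sum_abs _ _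
      _ ≤ ∑ _t ∈ Icc (1 : ℤ) M, 3 * L := sum_le_sum fun t _ => hff _
      _ = 3 * L * M := by
          rw [sum_const, Int.card_Icc, nsmul_eq_mul]
          have : ((M : ℤ) + 1 - 1).toNat = M := by omega
          rw [this]; ring
  -- splitting
  have hsplit : ∑ c ∈ Icc (-(q : ℤ)) N, F c ≤ ∑ c ∈ Icc (-(q : ℤ)) x₀, F c + ∑ c ∈ Ioc x₀ N, F (c : ℤ) := by
    have e1 : ∑ c ∈ Ioc x₀ N, F (c : ℤ) = ∑ c ∈ Ioc (x₀ : ℤ) N, F c := by
      refine sum_bij' (fun c _ => (c : ℤ)) (fun c _ => c.toNat) ?_ ?_ ?_ ?_ ?_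
      · intro c hc
        rw [mem_Ioc] at hc ⊢
        omega
      · intro c hc
        rw [mem_Ioc] at hc ⊢
        omega
      · intro c _
        simp
      · intro c hc
        rw [mem_Ioc] at hc
        exact Int.toNat_of_nonneg (by omega)
      · intro c _
        rfl
    rw [e1, ← sum_union]
    · apply sum_le_sum_of_subset_of_nonneg
      · intro c hc
        rw [mem_union, mem_Icc, mem_Ioc]
        rw [mem_Icc] at hc
        omega
      · intro c _ _
        exact hF0 c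
    · rw [disjoint_left]
      intro c hc
      rw [mem_Icc] at hc
      rw [mem_Ioc]
      omega
  set W : ℝ := X * (M : ℝ) ^ 2 with hW
  have hW0 : 0 ≤ W := by positivity
  -- the small c
  have hpart1 : ∑ c ∈ Icc (-(q : ℤ)) x₀, F c ≤ (1 / 2) * (W / L ^ U) := by
    have hcard : ((Icc (-(q : ℤ)) x₀).card : ℝ) ≤ 2 * (X / L ^ (U + 3)) := by
      rw [Int.card_Icc]
      have e1 : ((x₀ : ℤ) + 1 - -(q : ℤ)).toNat = x₀ + 1 + q := by omega
      rw [e1]
      push_cast
      have e2 : 3 * L ^ Q ≤ X / L ^ (U + 3) := by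
        rw [le_div_iff₀ (by positivity)]
        calc 3 * L ^ Q * L ^ (U + 3) = 3 * L ^ (Q + (U + 3)) := by ring
          _ ≤ √(X : ℝ) := a3
          _ ≤ X := hsX
      have e3 : (1 : ℝ) ≤ L ^ Q := one_le_pow₀ hL1
      linarith
    calc ∑ c ∈ Icc (-(q : ℤ)) x₀, F c ≤ ∑ _c ∈ Icc (-(q : ℤ)) x₀, (3 * L * M) ^ 2 := sum_le_sum fun c _ => htriv c
      _ = ((Icc (-(q : ℤ)) x₀).card : ℝ) * (3 * L * M) ^ 2 := by rw [sum_const, nsmul_eq_mul]
      _ ≤ 2 * (X / L ^ (U + 3)) * (3 * L * M) ^ 2 := mul_le_mul_of_nonneg_right hcard (by positivity)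
      _ = (18 / L) * (W / L ^ U) := by
          rw [hW, pow_add]
          field_simp
          ring
      _ ≤ (1 / 2) * (W / L ^ U) := by
          apply mul_le_mul_of_nonneg_right _ (by positivity)
          rw [div_le_div_iff₀ hL0 (by norm_num)]
          linarith
  -- the large c
  have hpart2 : ∑ c ∈ Ioc x₀ N, F (c : ℤ) ≤ (1 / 2) * (W / L ^ U) := by
    set K : ℝ := ((q * M : ℕ) : ℝ) ^ 2 * (2 ^ U' / L ^ U') with hK
    have hK0 : 0 ≤ K := by positivity
    have hwin : ∀ b ∈ range q, ∑ m ∈ Ioc x₀ N, ‖∑ n ∈ Ioc m (m + q * M), (ff z (n : ℤ) : ℂ) * e ((b : ℝ) * n / q)‖ ^ 2 ≤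
        K * (2 * N) := by
      intro b _
      apply dyad _ (fun _ => by positivity) x₀ N K hK0 hx01
      intro x hx1 hx2
      have hxs : √(X : ℝ) ≤ x := by
        have e1 : √(X : ℝ) ≤ X / L ^ (U + 3) := by
          rw [le_div_iff₀ (by positivity)]
          calc √(X : ℝ) * L ^ (U + 3) ≤ √(X : ℝ) * √(X : ℝ) := by gcongr
            _ = X := hss
        have e2 : (x₀ : ℝ) ≤ x := by exact_mod_cast hx1
        linarith
      have hxN : (x : ℝ) ≤ X * L ^ C := by
        have : (x : ℝ) ≤ N := by exact_mod_cast hx2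
        linarith
      have hxpos : (0 : ℝ) < x := by linarith
      have hlog1 : L / 2 ≤ Real.log x := by
        have e1 := Real.log_le_log hs0 hxs
        rw [Real.log_sqrt hX0.le] at e1
        exact e1
      have hlog2 : Real.log x ≤ 2 * L := by
        have e1 : (x : ℝ) ≤ (X : ℝ) ^ 2 := by
          calc (x : ℝ) ≤ X * L ^ C := hxN
            _ ≤ X * X := by gcongr; exact a2.trans hsX
            _ = (X : ℝ) ^ 2 := by ring
        have e2 := Real.log_le_log hxpos e1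
        rw [Real.log_pow] at e2
        push_cast at e2
        exact e2
      have hlog0 : 0 < Real.log x := by linarith
      have hXF' : XF ≤ x := by
        have e1 : ((XF : ℝ) + 1) ≤ √(X : ℝ) := by
          rw [← Real.sqrt_sq (by positivity : (0 : ℝ) ≤ (XF : ℝ) + 1)]
          apply Real.sqrt_le_sqrt
          exact_mod_cast hXF2
        have e2 : (XF : ℝ) ≤ x := by linarith
        exact_mod_cast e2
      have hpw : ∀ k : ℕ, (2 : ℝ) ^ (k + 1) ≤ L → L ^ k ≤ Real.log x ^ (k + 1) := by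
        intro k hk
        calc L ^ k ≤ (2 * Real.log x) ^ k := by
              apply pow_le_pow_left₀ hL0.le
              linarith
          _ = 2 ^ k * Real.log x ^ k := by rw [mul_pow]
          _ ≤ Real.log x * Real.log x ^ k := by
              apply mul_le_mul_of_nonneg_right _ (by positivity)
              rw [pow_succ] at hk
              linarith
          _ = Real.log x ^ (k + 1) := by ring
      have c1 : (q : ℝ) ≤ Real.log x ^ (Q + 1) := hqQ.trans (hpw Q hLQ)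
      have c2 : (z : ℝ) ≤ Real.log x ^ (E + 1) := hzE.trans (hpw E hLE)
      have hlogCF : Real.log x ^ CF ≤ L ^ (CF + 1) := by
        calc Real.log x ^ CF ≤ (2 * L) ^ CF := pow_le_pow_left₀ hlog0.le hlog2 _
          _ = 2 ^ CF * L ^ CF := by rw [mul_pow]
          _ ≤ L * L ^ CF := by gcongr
          _ = L ^ (CF + 1) := by ring
      have hqM : (M : ℝ) ≤ ((q * M : ℕ) : ℝ) := by
        push_cast
        nlinarith
      have c3 : (x : ℝ) ^ (1 / 3 : ℝ) * Real.log x ^ CF ≤ ((q * M : ℕ) : ℝ) := by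
        refine le_trans ?_ hqM
        refine le_trans ?_ hM
        have e1 : (x : ℝ) ^ (1 / 3 : ℝ) ≤ (X : ℝ) ^ (1 / 3 : ℝ) * L ^ C := by
          calc (x : ℝ) ^ (1 / 3 : ℝ) ≤ (X * L ^ C) ^ (1 / 3 : ℝ) := Real.rpow_le_rpow hxpos.le hxN (by norm_num)
            _ = (X : ℝ) ^ (1 / 3 : ℝ) * (L ^ C) ^ (1 / 3 : ℝ) := Real.mul_rpow hX0.le (by positivity)
            _ ≤ (X : ℝ) ^ (1 / 3 : ℝ) * L ^ C := by
                apply mul_le_mul_of_nonneg_left _ (by positivity)
                have e2 : (1 : ℝ) ≤ L ^ C := one_le_pow₀ hL1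
                calc (L ^ C) ^ (1 / 3 : ℝ) ≤ (L ^ C) ^ (1 : ℝ) :=
                      Real.rpow_le_rpow_of_exponent_le e2 (by norm_num)
                  _ = L ^ C := Real.rpow_one _
        calc (x : ℝ) ^ (1 / 3 : ℝ) * Real.log x ^ CF ≤ ((X : ℝ) ^ (1 / 3 : ℝ) * L ^ C) * L ^ (CF + 1) := by
              gcongr
          _ = (X : ℝ) ^ (1 / 3 : ℝ) * L ^ (C + CF + 1) := by ring
          _ ≤ (X : ℝ) ^ (1 / 3 : ℝ) * L ^ (Q + C + CF + (U + 3) + 2) := by
              apply mul_le_mul_of_nonneg_left _ (by positivity)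
              exact pow_le_pow_right₀ hL1 (by omega)
      have c4 : ((q * M : ℕ) : ℝ) * Real.log x ^ CF ≤ x := by
        have e2 : (x₀ : ℝ) ≤ x := by exact_mod_cast hx1
        refine le_trans ?_ (hx0ge.trans e2)
        rw [le_div_iff₀ (by positivity)]
        push_cast
        calc (q : ℝ) * M * Real.log x ^ CF * L ^ (U + 3) ≤ L ^ Q * M * L ^ (CF + 1) * L ^ (U + 3) := by gcongr
          _ = M * L ^ (Q + CF + (U + 3) + 1) := by ring
          _ ≤ M * L ^ (Q + C + CF + (U + 3) + 2) := by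
              apply mul_le_mul_of_nonneg_left _ hM0
              exact pow_le_pow_right₀ hL1 (by omega)
          _ ≤ X := hMX
      refine (hXF x hXF' z q hq c1 hqz c2 b (q * M) c3 c4).trans ?_
      rw [hK]
      have e1 : (L / 2) ^ U' ≤ Real.log x ^ U' := pow_le_pow_left₀ (by positivity) hlog1 _
      calc (x : ℝ) * ((q * M : ℕ) : ℝ) ^ 2 / Real.log x ^ U' ≤ (x : ℝ) * ((q * M : ℕ) : ℝ) ^ 2 / (L / 2) ^ U' := by
            apply div_le_div_of_nonneg_left (by positivity) (by positivity) e1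
        _ = _ := by rw [div_pow]; field_simp
    calc ∑ c ∈ Ioc x₀ N, F (c : ℤ) ≤ ∑ c ∈ Ioc x₀ N, (1 / (q : ℝ)) * ∑ b ∈ range q,
          ‖∑ n ∈ Ioc c (c + q * M), (ff z (n : ℤ) : ℂ) * e ((b : ℝ) * n / q)‖ ^ 2 :=
          sum_le_sum fun c _ => prog_sq q M c hq (ff z)
      _ = (1 / (q : ℝ)) * ∑ b ∈ range q, ∑ c ∈ Ioc x₀ N,
          ‖∑ n ∈ Ioc c (c + q * M), (ff z (n : ℤ) : ℂ) * e ((b : ℝ) * n / q)‖ ^ 2 := by
          rw [← mul_sum, sum_comm]
      _ ≤ (1 / (q : ℝ)) * ∑ _b ∈ range q, K * (2 * N) := by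
          apply mul_le_mul_of_nonneg_left _ (by positivity)
          exact sum_le_sum hwin
      _ = K * (2 * N) := by
          rw [sum_const, card_range, nsmul_eq_mul]
          field_simp
      _ ≤ (((L ^ Q * M) ^ 2) * (2 ^ U' / L ^ U')) * (2 * (X * L ^ C)) := by
          rw [hK]
          push_cast
          gcongr
      _ = (2 ^ (U' + 1) / L ^ 2) * (W / L ^ U) := by
          have e1 : L ^ U' = L ^ U * L ^ C * L ^ (2 * Q) * L ^ 2 := by rw [hU']; ring
          rw [e1, hW]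
          field_simp
          ring
      _ ≤ (1 / 2) * (W / L ^ U) := by
          apply mul_le_mul_of_nonneg_right _ (by positivity)
          rw [div_le_div_iff₀ (by positivity) (by norm_num)]
          have e1 : (2 : ℝ) ^ (U' + 2) = 2 ^ (U' + 1) * 2 := by ring
          nlinarith
  have hfin : ∑ c ∈ Icc (-(q : ℤ)) N, F c ≤ W / L ^ U := by linarith
  exact hfin

end Run7.h373.CR
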